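import Pool.Agent.R831.Comm5

/-!
MP_bf1dc4_ag, Q1: for every field `K` and every `n ≥ 3` the ideal generated by the diagonal and
antidiagonal entries of the commutator of two generic `n × n` matrices, and the ideal generated by
its antidiagonal entries, are prime.
-/

namespace Pool.Agent.Results.MP_bf1dc4_ag.Primality

universe u

/-- The `2n²` variables: `Sum.inl (i, j)` is `x_{ij}` and `Sum.inr (i, j)` is `y_{ij}`. -/
abbrev Var (n : ℕ) : Type := (Fin n × Fin n) ⊕ (Fin n × Fin n)

/-- The generic matrix `X = (x_{ij})`. -/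
noncomputable def X (K : Type u) [Field K] (n : ℕ) :
    Matrix (Fin n) (Fin n) (MvPolynomial (Var n) K) :=
  Matrix.of fun i j => MvPolynomial.X (Sum.inl (i, j))

/-- The generic matrix `Y = (y_{ij})`. -/
noncomputable def Y (K : Type u) [Field K] (n : ℕ) :
    Matrix (Fin n) (Fin n) (MvPolynomial (Var n) K) :=
  Matrix.of fun i j => MvPolynomial.X (Sum.inr (i, j))

/-- The commutator `C = XY - YX`. -/
noncomputable def C (K : Type u) [Field K] (n : ℕ) :
    Matrix (Fin n) (Fin n) (MvPolynomial (Var n) K) :=
  X K n * Y K n - Y K n * X K n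

/-- The ideal `I` generated by the diagonal entries of `C`. -/
noncomputable def I (K : Type u) [Field K] (n : ℕ) : Ideal (MvPolynomial (Var n) K) :=
  Ideal.span (Set.range fun i : Fin n => C K n i i)

/-- The ideal `J` generated by the antidiagonal entries of `C` (`Fin.rev i` is the index
`n + 1 - i` of the one-based convention). -/
noncomputable def J (K : Type u) [Field K] (n : ℕ) : Ideal (MvPolynomial (Var n) K) :=
  Ideal.span (Set.range fun i : Fin n => C K n i (Fin.rev i))

/-- The ideal `𝓘 = I + J`. -/
noncomputable def calI (K : Type u) [Field K] (n : ℕ) : Ideal (MvPolynomial (Var n) K) :=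
  I K n ⊔ J K n

lemma C_apply (K : Type u) [Field K] (n : ℕ) (i r : Fin n) : C K n i r = R831.Comm.cc K i r := by
  simp only [C, X, Y, R831.Comm.cc, R831.Comm.xx, R831.Comm.yy, Matrix.sub_apply,
    Matrix.mul_apply, Matrix.of_apply, Finset.sum_sub_distrib]

/-- For every field `K` (of any characteristic) and every `n ≥ 3`, the ideals `𝓘` and `J` of
`K[X, Y]` are prime. -/
theorem result (K : Type u) [Field K] (n : ℕ) (hn : 3 ≤ n) :
    (calI K n).IsPrime ∧ (J K n).IsPrime := by
  obtain ⟨N, rfl⟩ : ∃ N, n = N + 3 := ⟨n - 3, by omega⟩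
  have hI : I K (N + 3) = Ideal.span (Set.range fun i : Fin (N + 3) => R831.Comm.cc K i i) := by
    simp only [I, C_apply]
  have hJ : J K (N + 3) = Ideal.span (Set.range fun i : Fin (N + 3) => R831.Comm.cc K i i.rev) := by
    simp only [J, C_apply]
  constructor
  · rw [calI, hI, hJ, ← R831.Comm.LT_eq]
    exact R831.Comm.LT_prime
  · rw [hJ, ← R831.Comm.LJ_eq]
    exact R831.Comm.LJ_prime

end Pool.Agent.Results.MP_bf1dc4_ag.Primality
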